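import Pool.Agent.H174.GP.StA
import Pool.Agent.H174.GP.StP
import Pool.Agent.H174.GP.StC

/-!
# Project GP: middle coordinates
-/

set_option autoImplicit false

open MeasureTheory ProbabilityTheory Finset Filter Topology

namespace Pool.Agent.H284.GP174

open Pool.Agent.H174.GP

/-- the deterministic part: bounds for the partial sums give a bound for the sums with `min (j, k)` -/
theorem mid_det (B d k : ℕ) (Y : ℕ → ℝ) (t1 t2 : ℝ) (hBd : B ≤ d) (hk : k ≤ d)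
    (h1 : ∀ l ∈ Icc B d, |∑ j ∈ Ioc B l, (j : ℝ) * Y j| ≤ t1)
    (h2 : ∀ l ∈ Icc B d, |∑ j ∈ Ioc B l, Y j| ≤ t2) :
    -(t1 + k * (2 * t2)) ≤ ∑ j ∈ Ioc B d, ((min j k : ℕ) : ℝ) * Y j := by
  have ht1 : 0 ≤ t1 := (abs_nonneg _).trans (h1 B (mem_Icc.2 ⟨le_rfl, hBd⟩))
  have ht2 : 0 ≤ t2 := (abs_nonneg _).trans (h2 B (mem_Icc.2 ⟨le_rfl, hBd⟩))
  have hk0 : (0 : ℝ) ≤ k := Nat.cast_nonneg k
  have hd := abs_le.1 (h2 d (mem_Icc.2 ⟨hBd, le_rfl⟩))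
  rcases le_total k B with hkB | hkB
  · have e1 : ∑ j ∈ Ioc B d, ((min j k : ℕ) : ℝ) * Y j = k * ∑ j ∈ Ioc B d, Y j := by
      rw [mul_sum]
      refine sum_congr rfl fun j hj => ?_
      rw [mem_Ioc] at hj
      rw [min_eq_right (by omega)]
    rw [e1]
    nlinarith [mul_nonneg hk0 ht2, mul_nonneg hk0 (by linarith [hd.1] : 0 ≤ ∑ j ∈ Ioc B d, Y j + t2)]
  · have e1 : ∑ j ∈ Ioc B d, ((min j k : ℕ) : ℝ) * Y j =
        ∑ j ∈ Ioc B k, (j : ℝ) * Y j + k * (∑ j ∈ Ioc B d, Y j - ∑ j ∈ Ioc B k, Y j) := by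
      rw [← sum_Ioc_consecutive (fun j => ((min j k : ℕ) : ℝ) * Y j) hkB hk,
        ← sum_Ioc_consecutive Y hkB hk, add_sub_cancel_left, mul_sum]
      congr 1
      · refine sum_congr rfl fun j hj => ?_
        rw [mem_Ioc] at hj
        rw [min_eq_left (by omega)]
      · refine sum_congr rfl fun j hj => ?_
        rw [mem_Ioc] at hj
        rw [min_eq_right (by omega)]
    rw [e1]
    have a1 := abs_le.1 (h1 k (mem_Icc.2 ⟨hkB, hk⟩))
    have a2 := abs_le.1 (h2 k (mem_Icc.2 ⟨hkB, hk⟩))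
    have a3 : 0 ≤ ∑ j ∈ Ioc B d, Y j - ∑ j ∈ Ioc B k, Y j + 2 * t2 := by linarith [hd.1, a2.2]
    nlinarith [mul_nonneg hk0 a3, a1.1]

theorem mid_sq {f : ℝ → ℝ} (hm : Measurable f) (h : Integrable (fun x => f x ^ 4) lap) :
    Integrable (fun x => f x ^ 2) lap := by
  refine ((integrable_const (1 : ℝ)).add h).mono' (hm.pow_const 2).aestronglyMeasurable
    (Eventually.of_forall fun x => ?_)
  rw [Real.norm_eq_abs, abs_of_nonneg (sq_nonneg _)]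
  show f x ^ 2 ≤ 1 + f x ^ 4
  nlinarith [sq_nonneg (f x ^ 2 - 1), sq_nonneg (f x)]

theorem gp_mid (h1 : S_half) (h2 : S_AdmGeo) (h3 : S_cheb) (h4 : S_var2) (h5 : S_Tqmean)
    (h6 : S_Tq) : Pool.Agent.H174.GP.S_mid := by
  intro s1 s2 η hs1 hs2 hη hη1
  obtain ⟨cv, hcv, Cv, hCv, κ, hκ, hadm⟩ := h2 s2 hs2
  set R : ℝ := (1 + 512 * Cv) / (s1 * η) with hR
  have hR0 : 0 < R := by positivity
  have hRη : 512 * Cv ≤ R ^ 2 * (s1 * η) ^ 2 := by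
    have e1 : R ^ 2 * (s1 * η) ^ 2 = (1 + 512 * Cv) ^ 2 := by
      rw [hR, div_pow, div_mul_cancel₀]
      positivity
    rw [e1]
    nlinarith [sq_nonneg (512 * Cv)]
  refine ⟨R, hR0, 1, ?_⟩
  intro d hd σ hσ hσ1 hσ2 js
  have hadm' := hadm σ d hσ hσ2
  have hd0 : (0 : ℝ) < d := by exact_mod_cast hd
  set B : ℕ := ⌊η * d⌋₊ with hB
  have hBd : B ≤ d := by
    have : (B : ℝ) ≤ η * d := Nat.floor_le (by positivity)
    have h7 : (B : ℝ) ≤ d := this.trans (by nlinarith)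
    exact_mod_cast h7
  set J : Finset ℕ := (Ioc B d).erase js with hJ
  have hJsub : J ⊆ Ioc B d := erase_subset _ _
  set D : ℝ := (d : ℝ) ^ (3 / 2 : ℝ) with hD
  have hDd : D = d * √d := by
    rw [hD, Real.sqrt_eq_rpow]
    have : (3 / 2 : ℝ) = 1 + 1 / 2 := by norm_num
    rw [this, Real.rpow_add hd0, Real.rpow_one]
  have hsq : √(d : ℝ) ^ 2 = d := Real.sq_sqrt hd0.le
  have hsq0 : 0 < √(d : ℝ) := Real.sqrt_pos.2 hd0
  have hD0 : 0 < D := by rw [hDd]; positivity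
  have hD2 : D ^ 2 = (d : ℝ) ^ 3 := by
    rw [hDd, mul_pow, hsq]
    ring
  -- the functions
  set φ : ℕ → ℝ → ℝ := fun j x => if j ∈ J then (Tq (σ * j) x : ℝ) else 0 with hφ
  have hjpos : ∀ j ∈ Ioc B d, (0 : ℝ) < j := fun j hj => by
    rw [mem_Ioc] at hj
    exact_mod_cast (by omega : 0 < j)
  have hjI : ∀ j ∈ Ioc B d, j ∈ Icc 1 d := fun j hj => by
    rw [mem_Ioc] at hj
    exact mem_Icc.2 ⟨by omega, hj.2⟩
  have hTm : ∀ j ∈ Ioc B d, Measurable (fun x => (Tq (σ * j) x : ℝ)) := fun j hj =>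
    (hadm'.mono j (hjI j hj)).measurable
  have hTo : ∀ j ∈ Ioc B d, ∀ x, (Tq (σ * j) (-x) : ℝ) = -(Tq (σ * j) x : ℝ) := fun j hj x =>
    hadm'.odd j (hjI j hj) x
  have hT4 : ∀ j ∈ Ioc B d, Integrable (fun x => (Tq (σ * j) x : ℝ) ^ 4) lap := fun j hj =>
    hadm'.int j (hjI j hj)
  have hT2 : ∀ j ∈ Ioc B d, ∫ x, (Tq (σ * j) x : ℝ) ^ 2 ∂lap ≤ Cv * (1 / σ) ^ 2 / (j : ℝ) ^ 2 :=
    fun j hj => hadm'.hi j (hjI j hj)
  have hφm : ∀ j ∈ Ioc B d, Measurable (φ j) := fun j hj => by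
    by_cases hjJ : j ∈ J
    · have : φ j = fun x => (Tq (σ * j) x : ℝ) := by
        funext x
        exact if_pos hjJ
      rw [this]
      exact hTm j hj
    · have : φ j = fun _ => 0 := by
        funext x
        exact if_neg hjJ
      rw [this]
      exact measurable_const
  have hφo : ∀ j ∈ Ioc B d, ∀ x, φ j (-x) = -φ j x := fun j hj x => by
    by_cases hjJ : j ∈ J
    · simp only [hφ, if_pos hjJ]
      exact hTo j hj x
    · simp only [hφ, if_neg hjJ, neg_zero]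
  have hφ4 : ∀ j ∈ Ioc B d, Integrable (fun x => φ j x ^ 4) lap := fun j hj => by
    by_cases hjJ : j ∈ J
    · simp only [hφ, if_pos hjJ]
      exact hT4 j hj
    · simp only [hφ, if_neg hjJ]
      exact integrable_const _
  have hφ2 : ∀ j ∈ Ioc B d, ∫ x, φ j x ^ 2 ∂lap ≤ Cv * (1 / σ) ^ 2 / (j : ℝ) ^ 2 := fun j hj => by
    by_cases hjJ : j ∈ J
    · simp only [hφ, if_pos hjJ]
      exact hT2 j hj
    · simp only [hφ, if_neg hjJ]
      rw [zero_pow two_ne_zero, integral_zero]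
      have := hjpos j hj
      positivity
  have hcard : ((Ioc B d).card : ℝ) ≤ d := by
    rw [Nat.card_Ioc]
    exact_mod_cast Nat.sub_le _ _
  have hV : 0 ≤ Cv * (1 / σ) ^ 2 := by positivity
  -- the weighted second moments
  have hsum1 : ∑ j ∈ Ioc B d, ∫ x, ((j : ℝ) * φ j x) ^ 2 ∂lap ≤ d * (Cv * (1 / σ) ^ 2) := by
    refine (sum_le_card_nsmul _ _ (Cv * (1 / σ) ^ 2) fun j hj => ?_).trans ?_
    · simp only [mul_pow]
      rw [integral_const_mul]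
      have h7 := hjpos j hj
      calc (j : ℝ) ^ 2 * ∫ x, φ j x ^ 2 ∂lap ≤ (j : ℝ) ^ 2 * (Cv * (1 / σ) ^ 2 / (j : ℝ) ^ 2) :=
            mul_le_mul_of_nonneg_left (hφ2 j hj) (by positivity)
        _ = Cv * (1 / σ) ^ 2 := by
            field_simp
    · rw [nsmul_eq_mul]
      exact mul_le_mul_of_nonneg_right hcard hV
  have hηd : 0 < η * d := by positivity
  have hsum2 : ∑ j ∈ Ioc B d, ∫ x, φ j x ^ 2 ∂lap ≤ d * (Cv * (1 / σ) ^ 2 / (η * d) ^ 2) := by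
    refine (sum_le_card_nsmul _ _ (Cv * (1 / σ) ^ 2 / (η * d) ^ 2) fun j hj => ?_).trans ?_
    · refine (hφ2 j hj).trans ?_
      have h7 : η * d ≤ j := by
        have h8 : η * d < B + 1 := Nat.lt_floor_add_one _
        have h9 : (B : ℝ) + 1 ≤ j := by
          have := (mem_Ioc.1 hj).1
          exact_mod_cast this
        linarith
      exact div_le_div_of_nonneg_left hV (by positivity) (pow_le_pow_left₀ hηd.le h7 2)
    · rw [nsmul_eq_mul]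
      exact mul_le_mul_of_nonneg_right hcard (by positivity)
  -- numerical facts
  have hnum : 512 * Cv ≤ R ^ 2 * η ^ 2 * (σ * d) ^ 2 := by
    have h7 : s1 ^ 2 ≤ (σ * d) ^ 2 := pow_le_pow_left₀ hs1.le hσ1 2
    calc 512 * Cv ≤ R ^ 2 * (s1 * η) ^ 2 := hRη
      _ = R ^ 2 * η ^ 2 * s1 ^ 2 := by ring
      _ ≤ _ := mul_le_mul_of_nonneg_left h7 (by positivity)
  have hη2 : η ^ 2 ≤ 1 := by nlinarith
  have hnum' : 512 * Cv ≤ R ^ 2 * (σ * d) ^ 2 := by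
    refine hnum.trans ?_
    have : R ^ 2 * η ^ 2 * (σ * d) ^ 2 = η ^ 2 * (R ^ 2 * (σ * d) ^ 2) := by ring
    rw [this]
    exact mul_le_of_le_one_left (by positivity) hη2
  -- the exceptional events
  set t1 : ℝ := R * D / 4 with ht1
  set t2 : ℝ := R * √d / 4 with ht2
  have ht10 : 0 < t1 := by positivity
  have ht20 : 0 < t2 := by positivity
  have hA1 : PP.real {ω | ∃ l ∈ Icc B d, t1 ≤ |∑ j ∈ Ioc B l, (j : ℝ) * φ j (ω j)|} ≤ 1 / 16 := by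
    refine (h3 B d (fun j x => (j : ℝ) * φ j x) t1 hBd ht10
      (fun j hj => (hφm j hj).const_mul _) (fun j hj x => by
        show (j : ℝ) * φ j (-x) = -((j : ℝ) * φ j x)
        rw [hφo j hj x, mul_neg]) (fun j hj => by
        simp only [mul_pow]
        exact (hφ4 j hj).const_mul _)).trans ?_
    rw [div_le_iff₀ (by positivity)]
    have e1 : t1 ^ 2 = R ^ 2 * (d : ℝ) ^ 3 / 16 := by
      rw [ht1, div_pow, mul_pow, hD2]
      norm_num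
    rw [e1]
    have h7 : Cv * (1 / σ) ^ 2 * 512 ≤ R ^ 2 * (d : ℝ) ^ 2 := by
      rw [one_div, inv_pow, ← div_eq_mul_inv, div_mul_eq_mul_div, div_le_iff₀ (by positivity)]
      nlinarith [hnum']
    nlinarith [mul_le_mul_of_nonneg_left h7 hd0.le, hsum1]
  have hA2 : PP.real {ω | ∃ l ∈ Icc B d, t2 ≤ |∑ j ∈ Ioc B l, φ j (ω j)|} ≤ 1 / 16 := by
    refine (h3 B d φ t2 hBd ht20 hφm hφo hφ4).trans ?_
    rw [div_le_iff₀ (by positivity)]
    have e1 : t2 ^ 2 = R ^ 2 * (d : ℝ) / 16 := by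
      rw [ht2, div_pow, mul_pow, hsq]
      norm_num
    rw [e1]
    have h7 : d * (Cv * (1 / σ) ^ 2 / (η * d) ^ 2) * 512 ≤ R ^ 2 * (d : ℝ) := by
      have e2 : d * (Cv * (1 / σ) ^ 2 / (η * d) ^ 2) * 512 =
          512 * Cv / (η ^ 2 * (σ * d) ^ 2) * d := by
        field_simp
      rw [e2]
      refine mul_le_mul_of_nonneg_right ?_ hd0.le
      rw [div_le_iff₀ (by positivity)]
      linarith [hnum]
    nlinarith [hsum2]
  have hJT : ∀ j ∈ J, j ∈ Ioc B d := fun j hj => hJsub hj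
  have hA3 : PP.real {ω | R * D ≤ |∑ j ∈ J, ((j : ℝ) * |(Tq (σ * j) (ω j) : ℝ)| -
      ∫ x, (j : ℝ) * |(Tq (σ * j) x : ℝ)| ∂lap)|} ≤ 1 / 8 := by
    have hi : ∀ j ∈ J, Integrable (fun x => ((j : ℝ) * |(Tq (σ * j) x : ℝ)|) ^ 2) lap := by
      intro j hj
      simp only [mul_pow, sq_abs]
      exact (mid_sq (hTm j (hJT j hj)) (hT4 j (hJT j hj))).const_mul _
    refine (h4 J (fun j x => (j : ℝ) * |(Tq (σ * j) x : ℝ)|) (R * D) (by positivity)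
      (fun j hj => ((hTm j (hJT j hj)).abs).const_mul _) hi).trans ?_
    rw [div_le_iff₀ (by positivity)]
    have e1 : (R * D) ^ 2 = R ^ 2 * (d : ℝ) ^ 3 := by
      rw [mul_pow, hD2]
    rw [e1]
    have hsum3 : ∑ j ∈ J, ∫ x, ((j : ℝ) * |(Tq (σ * j) x : ℝ)|) ^ 2 ∂lap ≤
        d * (Cv * (1 / σ) ^ 2) := by
      refine (sum_le_card_nsmul _ _ (Cv * (1 / σ) ^ 2) fun j hj => ?_).trans ?_
      · simp only [mul_pow, sq_abs]
        rw [integral_const_mul]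
        have h7 := hjpos j (hJT j hj)
        calc (j : ℝ) ^ 2 * ∫ x, (Tq (σ * j) x : ℝ) ^ 2 ∂lap ≤
              (j : ℝ) ^ 2 * (Cv * (1 / σ) ^ 2 / (j : ℝ) ^ 2) :=
              mul_le_mul_of_nonneg_left (hT2 j (hJT j hj)) (by positivity)
          _ = Cv * (1 / σ) ^ 2 := by
              field_simp
      · rw [nsmul_eq_mul]
        refine mul_le_mul_of_nonneg_right (le_trans ?_ hcard) hV
        exact_mod_cast card_le_card hJsub
    have h7 : Cv * (1 / σ) ^ 2 * 512 ≤ R ^ 2 * (d : ℝ) ^ 2 := by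
      rw [one_div, inv_pow, ← div_eq_mul_inv, div_mul_eq_mul_div, div_le_iff₀ (by positivity)]
      nlinarith [hnum']
    have h8 : 0 ≤ (d : ℝ) * (Cv * (1 / σ) ^ 2) := by positivity
    nlinarith [mul_le_mul_of_nonneg_left h7 hd0.le, hsum3]
  have hA0 : 1 / 2 ≤ PP.real {ω | 0 ≤ ∑ j ∈ J, (Tq (σ * j) (ω j) : ℝ)} :=
    h1 J (fun j x => (Tq (σ * j) x : ℝ)) (fun j hj => hTm j (hJT j hj))
      (fun j hj => hTo j (hJT j hj))
  -- sums over `J`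
  have hconv : ∀ (w : ℕ → ℝ) (ω : ℕ → ℝ), ∑ j ∈ J, w j * (Tq (σ * j) (ω j) : ℝ) =
      ∑ j ∈ Ioc B d, w j * φ j (ω j) := by
    intro w ω
    rw [← sum_subset hJsub (f := fun j => w j * φ j (ω j)) (fun j _ hj => by
      simp only [hφ, if_neg hj, mul_zero])]
    refine sum_congr rfl fun j hj => ?_
    simp only [hφ, if_pos hj]
  have hmean : ∀ j ∈ J, ∫ x, (j : ℝ) * |(Tq (σ * j) x : ℝ)| ∂lap =
      (j : ℝ) * (2 * Real.exp (-(σ * j)) / (1 - Real.exp (-(2 * σ * j)))) := by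
    intro j hj
    rw [integral_const_mul, h5 (σ * j) (mul_pos hσ (hjpos j (hJT j hj))), mul_assoc 2 σ]
  -- conclusion
  set E : Set (ℕ → ℝ) := {ω | 0 ≤ ∑ j ∈ J, (geo σ ω j : ℝ) ∧
      (∀ k ∈ Icc 1 d, -(R * D) ≤ ∑ j ∈ J, ((min j k : ℕ) : ℝ) * (geo σ ω j : ℝ)) ∧
      |∑ j ∈ J, ((j : ℝ) * |(geo σ ω j : ℝ)| - (j : ℝ) * (2 * Real.exp (-(σ * j)) /
        (1 - Real.exp (-(2 * σ * j)))))| ≤ R * D} with hE
  show 1 / 4 ≤ PP.real E
  have hsub : {ω : ℕ → ℝ | 0 ≤ ∑ j ∈ J, (Tq (σ * j) (ω j) : ℝ)} ⊆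
      ((E ∪ {ω | ∃ l ∈ Icc B d, t1 ≤ |∑ j ∈ Ioc B l, (j : ℝ) * φ j (ω j)|}) ∪
        {ω | ∃ l ∈ Icc B d, t2 ≤ |∑ j ∈ Ioc B l, φ j (ω j)|}) ∪
        {ω | R * D ≤ |∑ j ∈ J, ((j : ℝ) * |(Tq (σ * j) (ω j) : ℝ)| -
          ∫ x, (j : ℝ) * |(Tq (σ * j) x : ℝ)| ∂lap)|} := by
    intro ω hω
    by_cases a3 : R * D ≤ |∑ j ∈ J, ((j : ℝ) * |(Tq (σ * j) (ω j) : ℝ)| -
        ∫ x, (j : ℝ) * |(Tq (σ * j) x : ℝ)| ∂lap)|
    · exact Or.inr a3
    by_cases a2 : ∃ l ∈ Icc B d, t2 ≤ |∑ j ∈ Ioc B l, φ j (ω j)|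
    · exact Or.inl (Or.inr a2)
    by_cases a1 : ∃ l ∈ Icc B d, t1 ≤ |∑ j ∈ Ioc B l, (j : ℝ) * φ j (ω j)|
    · exact Or.inl (Or.inl (Or.inr a1))
    push Not at a1 a2 a3
    refine Or.inl (Or.inl (Or.inl ⟨hω, ?_, ?_⟩))
    · intro k hk
      rw [mem_Icc] at hk
      have h7 := mid_det B d k (fun j => φ j (ω j)) t1 t2 hBd hk.2 (fun l hl => (a1 l hl).le)
        (fun l hl => (a2 l hl).le)
      rw [← hconv (fun j => ((min j k : ℕ) : ℝ)) ω] at h7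
      have h8 : t1 + k * (2 * t2) ≤ R * D := by
        have hkd : (k : ℝ) ≤ d := by exact_mod_cast hk.2
        have h9 : (k : ℝ) * (2 * t2) ≤ d * (2 * t2) :=
          mul_le_mul_of_nonneg_right hkd (by positivity)
        have h10 : (d : ℝ) * (2 * t2) = R * D / 2 := by
          rw [ht2, hDd]
          ring
        rw [ht1]
        nlinarith [mul_pos hR0 hD0]
      exact (neg_le_neg h8).trans h7
    · have h7 : ∑ j ∈ J, ((j : ℝ) * |(geo σ ω j : ℝ)| - (j : ℝ) * (2 * Real.exp (-(σ * j)) /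
          (1 - Real.exp (-(2 * σ * j))))) = ∑ j ∈ J, ((j : ℝ) * |(Tq (σ * j) (ω j) : ℝ)| -
          ∫ x, (j : ℝ) * |(Tq (σ * j) x : ℝ)| ∂lap) := by
        refine sum_congr rfl fun j hj => ?_
        rw [hmean j hj]
        rfl
      rw [h7]
      exact a3.le
  have hle := (measureReal_mono (μ := PP) hsub).trans (measureReal_union_le _ _)
  have hle2 := measureReal_union_le (μ := PP)
    (E ∪ {ω | ∃ l ∈ Icc B d, t1 ≤ |∑ j ∈ Ioc B l, (j : ℝ) * φ j (ω j)|})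
    {ω | ∃ l ∈ Icc B d, t2 ≤ |∑ j ∈ Ioc B l, φ j (ω j)|}
  have hle3 := measureReal_union_le (μ := PP) E
    {ω | ∃ l ∈ Icc B d, t1 ≤ |∑ j ∈ Ioc B l, (j : ℝ) * φ j (ω j)|}
  linarith

end Pool.Agent.H284.GP174
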